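import Pool.Agent.Helper22.AMX.Quot
import Pool.Agent.Helper98.AAD.Main
import Pool.Agent.Helper98.AAD.L6

set_option autoImplicit false

namespace Pool.Agent.Results.MP_aade38_al.NoMaximal

open Pool.Agent.Helper22.AMX Pool.Agent.Helper62.Amal Pool.Agent.Helper98.AAD

/-- There are groups `A`, `B` of cardinality at most the continuum, a proper subgroup `C` of `A` and
an injective homomorphism `φ` from `C` onto a proper subgroup of `B`, both of countable index, such
that the amalgamated free product, i.e. the quotient of the free product by the normal subgroup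
generated by the elements `c⁻¹ φ(c)`, has no maximal subgroup. -/
theorem result :
    ∃ (A B : Type) (_ : Group A) (_ : Group B) (C : Subgroup A) (φ : C →* B),
      Function.Injective φ ∧ C ≠ ⊤ ∧ φ.range ≠ ⊤ ∧
      Countable (A ⧸ C) ∧ Countable (B ⧸ φ.range) ∧
      Cardinal.mk A ≤ Cardinal.continuum ∧ Cardinal.mk B ≤ Cardinal.continuum ∧
      HasNoMaximalSubgroup (GenFreeProduct C φ) := by
  obtain ⟨G, _, _, q, β, Γ, E, h⟩ := exists_finS
  let D : Chain G :=
    { Γ := Γ
      mono := h.mono
      cover := h.ex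
      E := E
      hEΓ := h.EΓ
      comm := h.comm
      ab := h.ab
      div := fun k n hn e he => h.div k e he n hn.ne' }
  let A : Subgroup G := β 0 ⊔ q.range
  let B : Subgroup G := Bb β
  have hE : ∀ k e, e ∈ E k → e ∈ A ∧ e ∈ B := fun k e he =>
    ⟨Subgroup.mem_sup_left (h.EC k he), β_le_Bb β 0 (h.EC k he)⟩
  have hA : ∀ k, D.E k ≤ A := fun k e he => (hE k e he).1
  have hB : ∀ k, D.E k ≤ B := fun k e he => (hE k e he).2
  have hgen : A ⊔ B = ⊤ := by
    rw [eq_top_iff, ← h.qs.ra.gen]
    exact sup_le le_sup_right (le_sup_right.trans le_sup_left)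
  have hAB : ¬ A ≤ B := by
    intro hle
    have h1 : q (Multiplicative.ofAdd (1 : ℚ)) ∈ Bb β := hle (Subgroup.mem_sup_right ⟨_, rfl⟩)
    have h2 := h.qs.disj _ (h.qs.ra.inter _ ⟨_, rfl⟩ h1)
    have h3 : (1 : ℚ) = 0 := congrArg Multiplicative.toAdd h2
    exact one_ne_zero h3
  have hBA : ¬ B ≤ A := by
    intro hle
    obtain ⟨b, hb, hb'⟩ := h.lev 0
    exact hb' (h.qs.lev_inter 0 (hle (β_le_Bb β _ hb)) (β_le_Bb β _ hb))
  have hno := push_no_coatom D A B hA hB hgen h.qs.isAmalgam
    (fun k0 M hM hc => h.d hc hM)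
    (fun n hn x => by
      obtain ⟨y, hy⟩ := h.div_ab n hn x
      exact ⟨y, Subgroup.mem_sup_left hy⟩)
  have hinj : ∀ i, Function.Injective (φg D A B hA hB i) := fun i => Subgroup.inclusion_injective _
  refine ⟨Sg D A B hA hB true, Sg D A B hA hB false, inferInstance, inferInstance,
    (φg D A B hA hB true).range, glue (φg D A B hA hB) (hinj true),
    glue_injective _ _ (hinj false), ?_, ?_, idx_countable D A B hA hB true, ?_,
    mk_Sg_le D A B hA hB true, mk_Sg_le D A B hA hB false, ?_⟩
  · intro hc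
    exact not_surj_true D A B hA hB hAB (MonoidHom.range_eq_top.mp hc)
  · intro hc
    rw [glue_range] at hc
    exact not_surj_false D A B hA hB hBA (MonoidHom.range_eq_top.mp hc)
  · rw [glue_range]
    exact idx_countable D A B hA hB false
  · intro M hM
    by_contra hcon
    refine quot_no_coatom (φg D A B hA hB) (hinj true) hno M ⟨hM, fun H hH => ?_⟩
    by_contra hH'
    exact hcon ⟨H, hH, lt_top_iff_ne_top.mpr hH'⟩

end Pool.Agent.Results.MP_aade38_al.NoMaximal
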