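import Pool.Agent.Helper58.Amalg.Push

set_option autoImplicit false

namespace Pool.Agent.Results.MP_aade38_al.SmallCore

open Cardinal Pool.Agent.Helper58.Amalg

universe u

/-- If, modulo a subgroup normal in both factors, the amalgamated subgroup has cardinality at most
the maximum of `ℵ₀` and its two indices, then the amalgamated product has a maximal subgroup. -/
theorem result {G : Bool → Type u} [∀ i, Group (G i)] {H : Type u} [Group H]
    (φ : ∀ i, H →* G i) (hinj : ∀ i, Function.Injective (φ i))
    (hsurj : ∀ i, ¬ Function.Surjective (φ i)) (N : Subgroup H)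
    (hN : ∀ i, (N.map (φ i)).Normal)
    (hcard : #(H ⧸ N) ≤ max ℵ₀ (max #(G true ⧸ (φ true).range) #(G false ⧸ (φ false).range))) :
    ∃ M : Subgroup (Monoid.PushoutI φ), IsCoatom M := by
  have hP := isAmalg_push φ
  by_cases ht : #(G true ⧸ (φ true).range) < ℵ₀
  · exact part_fin hP (hinj true) (hinj false) (hsurj true)
      (Cardinal.lt_aleph0_iff_finite.1 ht)
  rw [not_lt] at ht
  rcases le_total #(G false ⧸ (φ false).range) #(G true ⧸ (φ true).range) with h | h
  · refine partI_core hP (hinj true) (hinj false) (hsurj false) N (hN true) (hN false) ht ?_ h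
    rwa [max_eq_left h, max_eq_right ht] at hcard
  · refine partI_core hP.symm (hinj false) (hinj true) (hsurj true) N (hN false) (hN true)
      (ht.trans h) ?_ h
    rwa [max_eq_right h, max_eq_right (ht.trans h)] at hcard

end Pool.Agent.Results.MP_aade38_al.SmallCore
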