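import Mathlib
import Pool.Agent.Helper52.Amalgam.Defs
import Pool.Agent.Helper52.Amalgam.Main

/-!
# Maximal subgroups of amalgams in which the group of half-tree stabilisers is open
-/

set_option autoImplicit false

open Monoid Monoid.PushoutI

universe u

namespace Pool.Agent.Results.MP_aade38_al.TitsIndependence

open Pool.Agent.Helper52.Amalgam

/-- Let `A *_C B` be an amalgamated free product with `C` different from both factors. If the
normal subgroup generated by the pointwise stabilisers of half-trees contains the intersection of
`C` with finitely many of its conjugates (that is, the pointwise stabiliser of finitely many edges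
of the Bass-Serre tree), then `A *_C B` has a maximal subgroup. This holds in particular if the
action on the Bass-Serre tree has the independence property of Tits. -/
theorem result (G : Bool → Type u) [∀ i, Group (G i)] (H : Type u) [Group H]
    (φ : ∀ i, H →* G i) (hφ : ∀ i, Function.Injective (φ i))
    (hns : ∀ i, ¬ Function.Surjective (φ i)) (S : Finset (PushoutI φ))
    (hT : ∀ c : H, (∀ s ∈ S, s⁻¹ * base φ c * s ∈ (base φ).range) → base φ c ∈ Gplus φ) :
    ∃ M : Subgroup (PushoutI φ), IsCoatom M :=
  exists_coatom_of_open hφ hns S hT

end Pool.Agent.Results.MP_aade38_al.TitsIndependence
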