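import Pool.Agent.Helper58.Amalg.Push

set_option autoImplicit false

namespace Pool.Agent.Results.MP_aade38_al.UnfoldedPath

open Pool.Agent.Helper58.Amalg

universe u

/-- If the factors have subgroups with the same intersection with the amalgamated subgroup `C`,
each containing the conjugate of `C` by an element outside it, then the amalgamated product has a
maximal subgroup. -/
theorem result {G : Bool → Type u} [∀ i, Group (G i)] {H : Type u} [Group H]
    (φ : ∀ i, H →* G i) (hinj : ∀ i, Function.Injective (φ i)) (V : ∀ i, Subgroup (G i))
    (g : ∀ i, G i) (hcompat : (V true).comap (φ true) = (V false).comap (φ false))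
    (hg : ∀ i, g i ∉ V i) (hconj : ∀ i h, g i * φ i h * (g i)⁻¹ ∈ V i) :
    ∃ K : Subgroup (Monoid.PushoutI φ), IsCoatom K := by
  refine partIII (isAmalg_push φ) (hinj true) (hinj false) (V true) (V false) (g true) (g false)
    ?_ (hg true) (hg false) (hconj true) (hconj false)
  intro h
  have h1 : h ∈ (V true).comap (φ true) ↔ h ∈ (V false).comap (φ false) := by rw [hcompat]
  exact h1

end Pool.Agent.Results.MP_aade38_al.UnfoldedPath
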